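import Pool.Agent.Lib.MP_b5021c_nt.IfaceB

/-!
# C2C: factors of stable unitary elements are full and unitary
-/

namespace Pool.Agent.B5.H61.C2

open scoped LaurentPolynomial
open Polynomial

section Basic

variable {O : Type} [CommRing O] [Coef O] {L : Type} [AddCommGroup L]

omit [Coef O] in
theorem mon_mul_coeff (b a : L) (X : AO O L) : (mon b * X).coeff a = X.coeff (a - b) := by
  have h := AddMonoidAlgebra.coeff_single_mul_add X (1 : RO O) b (a - b)
  rw [one_mul, add_sub_cancel] at h
  exact h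

theorem nn_spec {lam : L →+ ℤ} {G : AO O L} (h : Nn lam G) (z : Circle) : Nn lam (spec z G) := by
  intro a ha
  apply h a
  rw [Finsupp.mem_support_iff, spec_coeff] at ha
  rw [Finsupp.mem_support_iff]
  intro h0
  rw [h0, map_zero] at ha
  exact ha rfl

omit [Coef O] in
theorem nn_of_pos {lam : L →+ ℤ} {G : AO O L} (h : Pos lam G) : Nn lam G := by
  intro a ha
  by_cases h0 : a = 0
  · rw [h0, map_zero]
  · exact (h a ha h0).le

theorem sl_eval (u : AddChar L Circle) (lam : L →+ ℤ) (p : CA L) (hp : Nn lam p) (s : ℂ) :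
    (sl u lam p).eval s = ∑ᶠ a, p.coeff a * ((u a : ℂ) * s ^ (lam a)) := by
  rw [finsum_eq_sum_of_support_subset (s := p.coeff.support)]
  · rw [sl, Finsupp.sum, eval_finsetSum]
    apply Finset.sum_congr rfl
    intro a ha
    rw [eval_monomial, mul_assoc]
    have h := hp a ha
    obtain ⟨n, hn⟩ := Int.eq_ofNat_of_zero_le h
    rw [hn, Int.toNat_natCast, zpow_natCast]
  · intro a ha
    rw [Finset.mem_coe, Finsupp.mem_support_iff]
    intro h0
    apply ha
    change p.coeff a * _ = 0
    rw [h0, zero_mul]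

/-- the reflection formula -/
theorem reflect (u : AddChar L Circle) (lam : L →+ ℤ) (p q : CA L) (b : L) (hp : Nn lam p)
    (hq : Nn lam q) (h : ∀ a, q.coeff a = (starRingEnd ℂ) (p.coeff (b - a))) (s : ℂ) (hs : s ≠ 0) :
    (sl u lam q).eval s =
      (u b : ℂ) * s ^ (lam b) * (starRingEnd ℂ) ((sl u lam p).eval ((starRingEnd ℂ) s)⁻¹) := by
  rw [sl_eval u lam q hq, sl_eval u lam p hp]
  have hfin : (Function.support fun a => p.coeff a *
      ((u a : ℂ) * ((starRingEnd ℂ) s)⁻¹ ^ (lam a))).Finite := by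
    apply Set.Finite.subset p.coeff.support.finite_toSet
    intro a ha
    rw [Finset.mem_coe, Finsupp.mem_support_iff]
    intro h0
    apply ha
    change p.coeff a * _ = 0
    rw [h0, zero_mul]
  have e1 := AddMonoidHom.map_finsum (starRingEnd ℂ).toAddMonoidHom hfin
  have e1' : (starRingEnd ℂ) (∑ᶠ a, p.coeff a * ((u a : ℂ) * ((starRingEnd ℂ) s)⁻¹ ^ (lam a))) =
      ∑ᶠ a, (starRingEnd ℂ) (p.coeff a * ((u a : ℂ) * ((starRingEnd ℂ) s)⁻¹ ^ (lam a))) := e1
  rw [e1', mul_finsum]
  rw [← finsum_comp_equiv (Equiv.subLeft b)]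
  apply finsum_congr
  intro c
  rw [Equiv.subLeft_apply, h (b - c), sub_sub_cancel]
  have hu : ((u (b - c) : Circle) : ℂ) = (u b : ℂ) * (starRingEnd ℂ) (u c : ℂ) := by
    rw [sub_eq_add_neg, AddChar.map_add_eq_mul, AddChar.map_neg_eq_inv, Circle.coe_mul,
      Circle.coe_inv_eq_conj]
  have hl : s ^ (lam (b - c)) = s ^ (lam b) * (starRingEnd ℂ) (((starRingEnd ℂ) s)⁻¹ ^ (lam c)) := by
    rw [map_zpow₀, map_inv₀, Complex.conj_conj, map_sub, zpow_sub₀ hs, inv_zpow, div_eq_mul_inv]
  rw [hu, hl]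
  simp only [map_mul]
  ring

end Basic

variable {O : Type} [CommRing O] [IsDomain O] [IsPrincipalIdealRing O] [Coef O]
  {L : Type} [AddCommGroup L] [Module.Free ℤ L] [Module.Finite ℤ L]

omit [IsDomain O] [IsPrincipalIdealRing O] [Coef O] [Module.Free ℤ L] [Module.Finite ℤ L] in
theorem mon_zero : (mon (0 : L) : AO O L) = 1 := rfl

omit [IsDomain O] [IsPrincipalIdealRing O] [Coef O] [Module.Free ℤ L] [Module.Finite ℤ L] in
/-- the shift is trivial -/
theorem shift_zero {lam : L →+ ℤ} {G : AO O L} {b : L} (hn : Nn lam G) (h0 : G.coeff 0 ≠ 0)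
    (hst : (mon b * G).coeff 0 ≠ 0) (hp : Pos lam (mon b * G)) : b = 0 := by
  by_contra hb
  rw [mon_mul_coeff, zero_sub] at hst
  have h1 := hn (-b) (Finsupp.mem_support_iff.mpr hst)
  have h2 := hp b (by rw [Finsupp.mem_support_iff, mon_mul_coeff, sub_self]; exact h0) hb
  rw [map_neg] at h1
  linarith

theorem c2c (hB4 : B4S) (hC1 : C1S) (hSh : SharpS) (hP : PrimS) (hB2 : B2cS) (hSt : StSpecS) :
    C2S := by
  intro O _ _ _ _ L _ _ _ V G H lam hV hU hpos hVGH hnG hG0
  obtain ⟨b1, hb1, -, hb3⟩ := hB4 O L V G H hV hVGH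
  have hpb := ((hb3 lam).2 hpos).1
  have hb0 : b1 = 0 := shift_zero hnG hG0 hb1.1 hpb
  rw [hb0, mon_zero, one_mul] at hb1 hpb
  -- the factor `G^#`
  obtain ⟨ε, hε⟩ := hU
  have hV2 : V = sharp G * (sharp H * (ε : AO O L)) := by
    rw [← mul_assoc, ← map_mul, ← hVGH, hε]
  obtain ⟨b, hc1, -, hc3⟩ := hB4 O L V _ _ hV hV2
  have hpc := ((hc3 lam).2 hpos).1
  have hcoef : ∀ a, (mon b * sharp G).coeff a = rsh (G.coeff (b - a)) := by
    intro a
    rw [mon_mul_coeff, sharp_coeff', neg_sub]
  have hev : ∀ (z : Circle) (q : RO O), evR z (rsh q) = (starRingEnd ℂ) (evR z q) := by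
    intro z q
    have h1 := (hSh O L (cst q)).1 z (1 : AddChar L Circle)
    have h2 : sharp (cst q : AO O L) = cst (rsh q) := by
      apply AddMonoidAlgebra.ext
      apply Finsupp.ext
      intro a
      rw [sharp_coeff']
      by_cases ha : a = 0
      · rw [ha, neg_zero]
        change rsh ((Finsupp.single (0 : L) q) 0) = (Finsupp.single (0 : L) (rsh q)) 0
        rw [Finsupp.single_eq_same, Finsupp.single_eq_same]
      · change rsh ((Finsupp.single (0 : L) q) (-a)) = (Finsupp.single (0 : L) (rsh q)) a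
        rw [Finsupp.single_eq_of_ne (by simpa using ha), Finsupp.single_eq_of_ne ha, map_zero]
    have h3 : ∀ q : RO O, ev z (1 : AddChar L Circle) (cst q : AO O L) = evR z q := by
      intro q
      rw [ev, RingHom.comp_apply, evC_apply]
      have h4 : spec z (cst q : AO O L) = AddMonoidAlgebra.single (0 : L) (evR z q) := by
        apply AddMonoidAlgebra.ext
        apply Finsupp.ext
        intro a
        rw [spec_coeff]
        by_cases ha : a = 0
        · rw [ha]
          change evR z ((Finsupp.single (0 : L) q) 0) = (Finsupp.single (0 : L) (evR z q)) 0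
          rw [Finsupp.single_eq_same, Finsupp.single_eq_same]
        · change evR z ((Finsupp.single (0 : L) q) a) = (Finsupp.single (0 : L) (evR z q)) a
          rw [Finsupp.single_eq_of_ne ha, Finsupp.single_eq_of_ne ha, map_zero]
      rw [h4]
      refine (Finsupp.sum_single_index (by simp)).trans ?_
      simp
    rw [h2, h3, h3] at h1
    exact h1
  have hfull : FullAt lam G := by
    refine ⟨hG0, hpb, fun z hz u s hs => ?_⟩
    rcases lt_trichotomy ‖s‖ 1 with h1 | h1 | h1
    · exact absurd hs ((hSt O L G).2.2 hb1 lam hpb z hz u s h1)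
    · exact h1
    · exfalso
      have hs0 : s ≠ 0 := by
        intro h0
        rw [h0, norm_zero] at h1
        linarith
      -- the constant coefficient of `mon b * sharp G` at `z`
      have hz2 : evR z ((mon b * sharp G).coeff 0) ≠ 0 := by
        intro h0
        obtain ⟨C, hC⟩ := (hB2 O L (mon b * sharp G) hc1).1 b
        have h2 := hC z
        rw [h0, norm_zero, mul_zero, hcoef, sub_self, hev, RCLike.norm_conj] at h2
        exact hz (norm_le_zero_iff.mp h2)
      have h3 := (hSt O L (mon b * sharp G)).2.2 hc1 lam hpc z hz2 u ((starRingEnd ℂ) s)⁻¹ (by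
        rw [norm_inv, RCLike.norm_conj]
        exact inv_lt_one_of_one_lt₀ h1)
      apply h3
      rw [reflect u lam (spec z G) (spec z (mon b * sharp G)) b (nn_spec hnG z)
        (nn_spec (nn_of_pos hpc) z) _ _ (inv_ne_zero (by simpa using hs0))]
      · rw [map_inv₀, Complex.conj_conj, inv_inv, hs, map_zero, mul_zero]
      · intro a
        rw [spec_coeff, spec_coeff, hcoef, hev]
  refine ⟨hfull, fun hirr hw => ?_⟩
  have hprim : Prim G := (hP O L G G).2.1 hirr hw
  have hdvd : G ∣ sharp G := by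
    apply hC1 O L G (sharp G) lam hfull hprim
    apply Set.Finite.subset Set.finite_empty
    intro z hz
    exfalso
    apply hz
    refine ⟨1, fun u => ?_⟩
    rw [(hSh O L G).1 z u, RCLike.norm_conj, one_mul]
  obtain ⟨K, hK⟩ := hdvd
  have hirr2 : Irreducible (sharp G) := (hSh O L G).2.2.1 hirr
  have hKu : IsUnit K := (hirr2.isUnit_or_isUnit hK).resolve_left hirr.not_isUnit
  obtain ⟨w, hw2⟩ := hKu
  refine Associated.symm ⟨w, ?_⟩
  rw [hw2, ← hK]

end Pool.Agent.B5.H61.C2
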