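import Pool.Agent.Lib.MP_b5021c_nt.IfaceB

/-!
# FUL: full elements
-/

namespace Pool.Agent.B5.H61

open scoped LaurentPolynomial
open Polynomial

variable {O : Type} [CommRing O] [IsDomain O] [IsPrincipalIdealRing O] [Coef O]
  {L : Type} [AddCommGroup L] [Module.Free ℤ L] [Module.Finite ℤ L]

omit [IsDomain O] [IsPrincipalIdealRing O] [Module.Free ℤ L] [Module.Finite ℤ L] in
theorem nn_spec {lam : L →+ ℤ} {G : AO O L} (h : Nn lam G) (z : Circle) : Nn lam (spec z G) := by
  intro a ha
  apply h a
  rw [Finsupp.mem_support_iff, spec_coeff] at ha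
  rw [Finsupp.mem_support_iff]
  intro h0
  rw [h0, map_zero] at ha
  exact ha rfl

omit [IsDomain O] [IsPrincipalIdealRing O] [Coef O] [Module.Free ℤ L] [Module.Finite ℤ L] in
theorem nn_of_pos {lam : L →+ ℤ} {G : AO O L} (h : Pos lam G) : Nn lam G := by
  intro a ha
  by_cases h0 : a = 0
  · rw [h0, map_zero]
  · exact (h a ha h0).le

omit [IsDomain O] [IsPrincipalIdealRing O] [Module.Free ℤ L] [Module.Finite ℤ L] in
theorem full_stable {lam : L →+ ℤ} {G : AO O L} (h : FullAt lam G) : Stable G := by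
  refine ⟨h.1, lam, h.2.1, fun z hz u s hs h0 => ?_⟩
  have := h.2.2 z hz u s h0
  linarith

theorem ful (h1 : SlMulS) (h2 : Coeff0S) : FullS := by
  intro O _ _ _ _ L _ _ _ G H lam
  refine ⟨full_stable, ?_, ?_⟩
  · intro hG hH
    obtain ⟨h3, h4⟩ := h2 O L G H lam hG.2.1 hH.2.1
    refine ⟨?_, h4, ?_⟩
    · rw [h3]
      exact mul_ne_zero hG.1 hH.1
    · intro z hz u s hs
      rw [h3, map_mul] at hz
      have hzG := left_ne_zero_of_mul hz
      have hzH := right_ne_zero_of_mul hz
      rw [map_mul, (h1 L u lam (spec z G) (spec z H) (nn_spec (nn_of_pos hG.2.1) z)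
        (nn_spec (nn_of_pos hH.2.1) z)).1, eval_mul] at hs
      rcases mul_eq_zero.mp hs with h5 | h5
      · exact hG.2.2 z hzG u s h5
      · exact hH.2.2 z hzH u s h5
  · have hc : ∀ a : L, a ≠ 0 → (1 : AO O L).coeff a = 0 := by
      intro a ha
      rw [AddMonoidAlgebra.one_def]
      exact Finsupp.single_eq_of_ne ha
    have hc0 : (1 : AO O L).coeff 0 = 1 := by
      rw [AddMonoidAlgebra.one_def]
      exact Finsupp.single_eq_same
    refine ⟨?_, ?_, ?_⟩
    · rw [hc0]; exact one_ne_zero
    · intro a ha h0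
      rw [Finsupp.mem_support_iff] at ha
      exact absurd (hc a h0) ha
    · intro z hz u s hs
      exfalso
      rw [map_one] at hs
      have h3 : sl u lam (1 : CA L) = 1 := by
        rw [sl, AddMonoidAlgebra.one_def]
        have h4 := Finsupp.sum_single_index (a := (0 : L)) (b := (1 : ℂ))
          (h := fun a c => Polynomial.monomial (lam a).toNat (c * (u a : ℂ))) (by simp)
        refine h4.trans ?_
        simp
      rw [h3, eval_one] at hs
      exact one_ne_zero hs

end Pool.Agent.B5.H61
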